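import Pool.Agent.H73.HU.Stmt
import Pool.Agent.H73.HVN.Bridge

/-!
The Hecke–von Neumann algebra `N_q(W)` has the Haagerup property for every Coxeter system `(W, S)` and
every admissible `q` such that for some `L ⊆ S` with `q = 1` on `L` the condition `WallsFC` holds: the
labels between `S ∖ L` and `L` are even or infinite, and the reflection subgroup generated by the
`W_L`-conjugates of `S ∖ L` is of type FC. The parabolic subgroup `W_L` is arbitrary.

`Pool.Agent.H73.HU.wallsFC_empty`: for `L = ∅` this is the condition that `(W, S)` is of type FC (and then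
`q` is arbitrary); `Pool.Agent.H73.HU.wallsFC_univ`: for `L = S` (and then `q = 1`) there is no condition;
`Pool.Agent.H73.HVN.isFC_of_triangleFree`: every Coxeter system in which any three distinct generators
contain a pair with `m = ∞` is of type FC.
-/

set_option autoImplicit false

open scoped ComplexOrder InnerProductSpace
open Filter Topology

namespace Pool.Agent.Results.MP_880562_an.HaagerupWallsFC

open Pool.Agent.H73.HVN Pool.Agent.H73.HVN.St

universe u v

/-- Let `(W, S)` be a Coxeter system (`S` may be infinite), `q` an admissible parameter and `L ⊆ S` such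
that `q = 1` on `L` and `WallsFC` holds. There is exactly one family `T` of bounded operators on `ℓ²(W)`
with the defining property of the Hecke operators; `δ_1` is cyclic and separating for the von Neumann
algebra `N_q(W)` generated by the `T_s`, and `τ(x) = ⟨x δ_1, δ_1⟩` is a trace on it; and `(N_q(W), τ)` has
the Haagerup property. -/
theorem result {B : Type v} {W : Type u} [Group W] {M : CoxeterMatrix B} (cs : CoxeterSystem M W)
    {q : B → ℝ} (hq : St.Admissible cs q) {L : Set B} (hL : ∀ i ∈ L, q i = 1)
    (hFC : Pool.Agent.H73.HU.WallsFC cs L) :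
    ∃ T : B → BH (St.L2 W), St.IsHeckeFamily cs q T ∧ (∀ T', St.IsHeckeFamily cs q T' → T' = T) ∧
      (∀ i f g, ⟪ap (T i) f, g⟫_ℂ = ⟪f, ap (T i) g⟫_ℂ) ∧
      IsTracial (vNa (Set.range T)) (St.δ 1) ∧ HasHaagerup (vNa (Set.range T)) (St.δ 1) :=
  ⟨TT cs q, isHeckeFamily_TT' cs q, fun _ hT' => heckeFamily_unique cs (isHeckeFamily_TT' cs q) hT',
    TT_adj cs q, tracial_TT cs hq, haagerup_bridge (mem_vNa_TT cs q)
      (Pool.Agent.H73.HU.haagerup_walls cs hq hFC.1 hL hFC.2)⟩

end Pool.Agent.Results.MP_880562_an.HaagerupWallsFC
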