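import Pool.Agent.H26.HR.Main
import Pool.Agent.H73.HVN.Bridge

/-!
The Hecke–von Neumann algebra of every word hyperbolic Coxeter system of finite rank has the weak-*
completely bounded approximation property, for every admissible real parameter.
-/

set_option autoImplicit false

open scoped ComplexOrder InnerProductSpace
open Filter Topology

namespace Pool.Agent.Results.MP_880562_an.HyperbolicReal

open Pool.Agent.H73.HVN Pool.Agent.H73.HVN.St Pool.Agent.H26.HB

universe u v

/-- Let `(W, S)` be a word hyperbolic Coxeter system with `S` finite and let `q` be any admissible real parameter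
(`q_s > 0`, equal on conjugate generators). There is exactly one family `T` of bounded operators on `ℓ²(W)` with the
defining property of the Hecke operators, the `T_s` are self-adjoint, and the von Neumann algebra `N_q(W)` generated by
the `T_s` has the weak-* completely bounded approximation property (with some constant). -/
theorem result {B : Type v} [Finite B] {W : Type u} [Group W] {M : CoxeterMatrix B}
    (cs : CoxeterSystem M W) (hyp : ∃ k : ℕ, IsHyp cs k)
    {q : B → ℝ} (hq : St.Admissible cs q) :
    ∃ T : B → BH (St.L2 W), St.IsHeckeFamily cs q T ∧ (∀ T', St.IsHeckeFamily cs q T' → T' = T) ∧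
      (∀ i f g, ⟪ap (T i) f, g⟫_ℂ = ⟪f, ap (T i) g⟫_ℂ) ∧
      ∃ C : ℝ, St.HasWeakStarCBAP (vNa (Set.range T)) C := by
  obtain ⟨k, hk⟩ := hyp
  obtain ⟨C, hC⟩ := Pool.Agent.H26.HR.cbap_HA (cs := cs) hk hq
  exact ⟨TT cs q, isHeckeFamily_TT' cs q,
    fun _ hT' => heckeFamily_unique cs (isHeckeFamily_TT' cs q) hT',
    TT_adj cs q, C, cbap_bridge (mem_vNa_TT cs q) hC⟩

end Pool.Agent.Results.MP_880562_an.HyperbolicReal
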