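import Pool.Agent.H73.WM.Stmt

/-!
The Hecke–von Neumann algebra `N_q(W)` has the weak-* completely bounded approximation property with
every constant `C > 1` for every Coxeter system `(W, S)` with `S` finite and every admissible `q` such that
for some `L ⊆ S` with `q = 1` on `L` the condition `Mixed` holds: `m_{st}` is `2` or `∞` for `s ∉ L`,
`t ∈ L`, and `S ∖ L` is of type FC. The parabolic subgroup `W_L` is arbitrary.

`Pool.Agent.H73.WM.mixed_univ`: for `L = S` (and then `q = 1`) there is no condition (this case is known);
`Pool.Agent.H73.WM.mixed_empty`: for `L = ∅` (and then `q` is arbitrary) the condition is that `(W, S)` is of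
type FC (this case is in `WeakAmenableReflFC`).
-/

set_option autoImplicit false

open scoped ComplexOrder InnerProductSpace
open Filter Topology

namespace Pool.Agent.Results.MP_880562_an.WeakAmenableMixed

open Pool.Agent.H73.HVN Pool.Agent.H73.HVN.St

universe u

/-- Let `(W, S)` be a Coxeter system with `S` finite, `q` an admissible parameter and `L ⊆ S` such that
`q = 1` on `L` and `Mixed` holds. There is exactly one family `T` of bounded operators on `ℓ²(W)` with the
defining property of the Hecke operators, the `T_s` are self-adjoint, and the von Neumann algebra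
`N_q(W)` generated by the `T_s` has the weak-* completely bounded approximation property with every
constant `C > 1`. -/
theorem result {B : Type} [Finite B] {W : Type u} [Group W] {M : CoxeterMatrix B}
    (cs : CoxeterSystem M W) {q : B → ℝ} (hq : St.Admissible cs q) {L : Set B}
    (hL : ∀ i ∈ L, q i = 1) (hM : Pool.Agent.H73.WM.Mixed cs L) :
    ∃ T : B → BH (St.L2 W), St.IsHeckeFamily cs q T ∧ (∀ T', St.IsHeckeFamily cs q T' → T' = T) ∧
      (∀ i f g, ⟪ap (T i) f, g⟫_ℂ = ⟪f, ap (T i) g⟫_ℂ) ∧
      ∀ C : ℝ, 1 < C → St.HasWeakStarCBAP (vNa (Set.range T)) C :=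
  ⟨TT cs q, isHeckeFamily_TT' cs q, fun _ hT' => heckeFamily_unique cs (isHeckeFamily_TT' cs q) hT',
    TT_adj cs q, fun _ hC => cbap_bridge (mem_vNa_TT cs q)
      (Pool.Agent.H73.WM.cbap_mixed cs hq hL hM.1 hM.2 hC)⟩

end Pool.Agent.Results.MP_880562_an.WeakAmenableMixed
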