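import Pool.Agent.H26.SD.Stmt

/-!
The Hecke–von Neumann algebra `N_q(W)` has the weak-* completely bounded approximation property with
every constant `C > 1` for every Coxeter system `(W, S)` and every admissible `q` such that for some
`L ⊆ S` with `q = 1` on `L` the condition `FCRel` holds: the labels between `S ∖ L` and `L` are even or
infinite, `W_L` is finite, and the reflection subgroup generated by the `W_L`-conjugates of `S ∖ L` is of
type FC.

`Pool.Agent.H26.SD.fcRel_empty`: for `L = ∅` this is the condition that `(W, S)` is of type FC (and then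
`q` is arbitrary); `Pool.Agent.H73.HVN.isFC_of_triangleFree`: every Coxeter system in which any three
distinct generators contain a pair with `m = ∞` is of type FC.
-/

set_option autoImplicit false

open scoped ComplexOrder InnerProductSpace
open Filter Topology

namespace Pool.Agent.Results.MP_880562_an.WeakAmenableReflFC

open Pool.Agent.H73.HVN Pool.Agent.H73.HVN.St

universe u v

/-- Let `(W, S)` be a Coxeter system (`S` may be infinite), `q` an admissible parameter and `L ⊆ S` such
that `q = 1` on `L` and `FCRel` holds. There is exactly one family `T` of bounded operators on `ℓ²(W)`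
with the defining property of the Hecke operators, the `T_s` are self-adjoint, and the von Neumann algebra
`N_q(W)` generated by the `T_s` has the weak-* completely bounded approximation property with every
constant `C > 1`. -/
theorem result {B : Type v} {W : Type u} [Group W] {M : CoxeterMatrix B} (cs : CoxeterSystem M W)
    {q : B → ℝ} (hq : St.Admissible cs q) {L : Set B} (hL : ∀ i ∈ L, q i = 1)
    (hFC : Pool.Agent.H26.SD.FCRel cs L) :
    ∃ T : B → BH (St.L2 W), St.IsHeckeFamily cs q T ∧ (∀ T', St.IsHeckeFamily cs q T' → T' = T) ∧
      (∀ i f g, ⟪ap (T i) f, g⟫_ℂ = ⟪f, ap (T i) g⟫_ℂ) ∧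
      ∀ C : ℝ, 1 < C → St.HasWeakStarCBAP (vNa (Set.range T)) C :=
  ⟨TT cs q, isHeckeFamily_TT' cs q, fun _ hT' => heckeFamily_unique cs (isHeckeFamily_TT' cs q) hT',
    TT_adj cs q, fun _ hC => cbap_bridge (mem_vNa_TT cs q)
      (Pool.Agent.H26.SD.cbap_sd cs hq hFC.1 hL hFC.2.1 hFC.2.2 hC)⟩

end Pool.Agent.Results.MP_880562_an.WeakAmenableReflFC
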